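import Pool.Agent.helper7.BQ.Spec
import Pool.Agent.helper85.TG.VA1

/-! Row bq:MJR. -/

set_option autoImplicit false

namespace Pool.Agent.BQ

open Finset ArithmeticFunction MeasureTheory
open Pool.Agent.helper74.TG (ee gb)
open Pool.Agent.helper74.TG (geom_bound)

private theorem MJR_ee_int (k : ℤ) : ee (k : ℝ) = 1 := by
  unfold ee
  have h : (2 * Real.pi * ((k : ℝ) : ℂ) * Complex.I : ℂ) = k * (2 * Real.pi * Complex.I) := by
    push_cast
    ring
  rw [h]
  exact Complex.exp_int_mul_two_pi_mul_I k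

private theorem MJR_gb (X β L : ℝ) (hL : 0 < L) (h : 1 ≤ |β - round β| * L) : gb X β ≤ L / 2 := by
  have hp : 0 < |β - round β| := by
    by_contra hn
    have h0 : |β - round β| = 0 := le_antisymm (not_lt.1 hn) (abs_nonneg _)
    rw [h0] at h
    linarith
  have h1 : 1 / (2 * |β - round β|) ≤ L / 2 := by
    rw [div_le_div_iff₀ (by positivity) (by norm_num)]
    nlinarith
  unfold gb
  split_ifs with h2
  · refine le_trans ?_ h1
    rw [le_div_iff₀ (by positivity)]
    linarith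
  · exact h1

/-- The single sum. -/
private theorem MJR_term (q q' y B : ℕ) (a : ℤ) (a' : ℕ) (hq : 1 ≤ q) (hq' : 1 ≤ q') :
    ‖(∑ n ∈ Ioc y (y + B), ee ((n : ℝ) * ((a : ℝ) / q + (a' : ℝ) / q'))) -
      (if ((q : ℤ) * q') ∣ (a * q' + a' * q) then ((B : ℝ) : ℂ) else 0)‖ ≤ (q : ℝ) * q' / 2 := by
  have hq0 : (0 : ℝ) < q := by exact_mod_cast hq
  have hq0' : (0 : ℝ) < q' := by exact_mod_cast hq'
  have hβ : (a : ℝ) / q + (a' : ℝ) / q' = ((a * q' + a' * q : ℤ) : ℝ) / (q * q') := by
    push_cast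
    field_simp
  by_cases hd : ((q : ℤ) * q') ∣ (a * q' + a' * q)
  · obtain ⟨k, hk⟩ := hd
    have hβ2 : (a : ℝ) / q + (a' : ℝ) / q' = (k : ℝ) := by
      rw [hβ, hk]
      push_cast
      field_simp
    rw [if_pos ⟨k, hk⟩, hβ2]
    have h1 : ∀ n ∈ Ioc y (y + B), ee ((n : ℝ) * (k : ℝ)) = 1 := by
      intro n _
      have := MJR_ee_int ((n : ℤ) * k)
      push_cast at this
      exact this
    rw [Finset.sum_congr rfl h1]
    simp only [sum_const, Nat.card_Ioc, nsmul_eq_mul, mul_one]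
    have h2 : ((y + B - y : ℕ) : ℂ) = ((B : ℝ) : ℂ) := by
      rw [Nat.add_sub_cancel_left]
      push_cast
      rfl
    rw [h2, sub_self, norm_zero]
    positivity
  · rw [if_neg hd, sub_zero]
    refine (geom_bound y (y + B) (by omega) _).trans ?_
    refine MJR_gb _ _ _ (by positivity) ?_
    set β := (a : ℝ) / q + (a' : ℝ) / q' with hβd
    have h3 : (β - round β) * ((q : ℝ) * q') =
        (((a * q' + a' * q) - round β * (q * q') : ℤ) : ℝ) := by
      rw [sub_mul, hβ]
      push_cast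
      field_simp
    have h4 : ((a * q' + a' * q) - round β * (q * q') : ℤ) ≠ 0 := by
      intro h
      apply hd
      exact ⟨round β, by linarith⟩
    have h5 : (1 : ℝ) ≤ |(((a * q' + a' * q) - round β * (q * q') : ℤ) : ℝ)| := by
      have := Int.one_le_abs h4
      exact_mod_cast this
    rw [← h3, abs_mul, abs_of_pos (by positivity : (0 : ℝ) < (q : ℝ) * q')] at h5
    exact h5

/-- The divisibility holds for exactly one pair. -/
private theorem MJR_count (q q' B : ℕ) (a : ℤ) (hq : 1 ≤ q) (hq' : 1 ≤ q')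
    (ha : IsCoprime a (q : ℤ)) :
    (∑ a' ∈ (range q').filter (fun a' => Nat.Coprime a' q'),
      (if ((q : ℤ) * q') ∣ (a * q' + a' * q) then ((B : ℝ) : ℂ) else 0)) =
      if q' = q then ((B : ℝ) : ℂ) else 0 := by
  have hqz : (0 : ℤ) < q := by exact_mod_cast hq
  by_cases hqq : q' = q
  · subst hqq
    rw [if_pos rfl]
    have hmn : 0 ≤ (-a) % (q' : ℤ) := Int.emod_nonneg _ hqz.ne'
    have hml : (-a) % (q' : ℤ) < q' := Int.emod_lt_of_pos _ hqz
    obtain ⟨s, hs⟩ := Int.eq_ofNat_of_zero_le hmn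
    have hs' : (-a) % (q' : ℤ) = (s : ℤ) := hs
    have hsd : (q' : ℤ) ∣ a + s := by
      have h1 : (q' : ℤ) ∣ (-a) - (-a) % (q' : ℤ) := Int.dvd_self_sub_emod
      rw [hs'] at h1
      have h2 : a + s = -((-a) - s) := by ring
      rw [h2]
      exact (dvd_neg).2 h1
    have hslt : s < q' := by
      rw [hs'] at hml
      exact_mod_cast hml
    have hsc : Nat.Coprime s q' := by
      rw [← Nat.isCoprime_iff_coprime]
      obtain ⟨t, ht⟩ := hsd
      have h1 : (s : ℤ) = -a + q' * t := by linarith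
      rw [h1]
      exact (IsCoprime.neg_left ha).add_mul_left_left t
    rw [Finset.sum_eq_single s]
    · rw [if_pos]
      obtain ⟨t, ht⟩ := hsd
      exact ⟨t, by
        have : a * (q' : ℤ) + s * q' = (a + s) * q' := by ring
        rw [this, ht]
        ring⟩
    · intro b hb hbs
      rw [Finset.mem_filter, Finset.mem_range] at hb
      rw [if_neg]
      rintro ⟨k, hk⟩
      have h1 : (a + b) * (q' : ℤ) = (q' * k) * q' := by linarith
      have h2 : a + b = q' * k := mul_right_cancel₀ hqz.ne' h1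
      obtain ⟨t, ht⟩ := hsd
      have h3 : (b : ℤ) - s = q' * (k - t) := by linarith
      have h4 : k - t = 0 := by
        by_contra hne
        have h5 : (q' : ℤ) ≤ |(b : ℤ) - s| := by
          rw [h3, abs_mul, abs_of_pos hqz]
          have := Int.one_le_abs hne
          nlinarith
        have h6 : |(b : ℤ) - s| < q' := by
          rw [abs_lt]
          constructor
          · have : (s : ℤ) < q' := by exact_mod_cast hslt
            have : (0 : ℤ) ≤ b := by positivity
            linarith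
          · have : (b : ℤ) < q' := by exact_mod_cast hb.1
            have : (0 : ℤ) ≤ s := by positivity
            linarith
        linarith
      rw [h4, mul_zero] at h3
      apply hbs
      have : (b : ℤ) = s := by linarith
      exact_mod_cast this
    · intro h
      exact absurd (Finset.mem_filter.2 ⟨Finset.mem_range.2 hslt, hsc⟩) h
  · rw [if_neg hqq]
    refine Finset.sum_eq_zero fun b hb => ?_
    rw [Finset.mem_filter, Finset.mem_range] at hb
    rw [if_neg]
    rintro ⟨k, hk⟩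
    apply hqq
    apply Nat.dvd_antisymm
    · have h1 : (q' : ℤ) ∣ (b : ℤ) * q := by
        refine ⟨q * k - a, ?_⟩
        linarith
      have h2 : IsCoprime (q' : ℤ) (b : ℤ) := (Nat.isCoprime_iff_coprime.2 hb.2).symm
      exact_mod_cast h2.dvd_of_dvd_mul_left h1
    · have h1 : (q : ℤ) ∣ a * q' := by
        refine ⟨q' * k - b, ?_⟩
        linarith
      exact_mod_cast ha.symm.dvd_of_dvd_mul_left h1

theorem MJR (h1 : KLU_stmt) : MJR_stmt := by
  intro Q q y B a hq hqQ ha
  have hq0 : (0 : ℝ) < q := by exact_mod_cast hq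
  -- the single modulus
  have hT : ∀ q' : ℕ, 1 ≤ q' →
      ‖(∑ n ∈ Ioc y (y + B), (cR q' (n : ℤ) : ℂ) * ee ((n : ℝ) * ((a : ℝ) / q))) -
        (if q' = q then ((B : ℝ) : ℂ) else 0)‖ ≤ (Nat.totient q' : ℝ) * ((q : ℝ) * q' / 2) := by
    intro q' hq'
    have e1 : (∑ n ∈ Ioc y (y + B), (cR q' (n : ℤ) : ℂ) * ee ((n : ℝ) * ((a : ℝ) / q))) =
        ∑ a' ∈ (range q').filter (fun a' => Nat.Coprime a' q'),
          ∑ n ∈ Ioc y (y + B), ee ((n : ℝ) * ((a : ℝ) / q + (a' : ℝ) / q')) := by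
      rw [Finset.sum_comm]
      refine Finset.sum_congr rfl fun n _ => ?_
      rw [h1 q' (n : ℤ) hq', Finset.sum_mul]
      refine Finset.sum_congr rfl fun a' _ => ?_
      rw [← Pool.Agent.helper74.TG.h85_ee_add]
      congr 1
      push_cast
      ring
    rw [e1, ← MJR_count q q' B a hq hq' ha, ← Finset.sum_sub_distrib]
    refine (norm_sum_le _ _).trans ?_
    refine (Finset.sum_le_sum fun a' _ => MJR_term q q' y B a a' hq hq').trans ?_
    rw [Finset.sum_const, nsmul_eq_mul]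
    refine mul_le_mul_of_nonneg_right ?_ (by positivity)
    have h2 : #((range q').filter (fun a' => Nat.Coprime a' q')) = Nat.totient q' := by
      rw [Nat.totient_eq_card_coprime]
      refine congrArg _ (Finset.filter_congr fun x _ => ?_)
      exact Nat.coprime_comm
    rw [h2]
  have e2 : Sw (fun n => Lsh Q (n : ℤ)) B y ((a : ℝ) / q) =
      ∑ q' ∈ Ioc 0 Q, (((((moebius q' : ℤ) : ℝ) / (Nat.totient q' : ℝ) : ℝ)) : ℂ) *
        ∑ n ∈ Ioc y (y + B), (cR q' (n : ℤ) : ℂ) * ee ((n : ℝ) * ((a : ℝ) / q)) := by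
    unfold Sw Lsh
    simp only [Finset.mul_sum]
    rw [Finset.sum_comm]
    refine Finset.sum_congr rfl fun n _ => ?_
    rw [Complex.ofReal_sum, Finset.sum_mul]
    refine Finset.sum_congr rfl fun q' _ => ?_
    rw [Complex.ofReal_mul, mul_assoc]
  have e3 : ((((moebius q : ℤ) : ℝ) / (Nat.totient q : ℝ) * B : ℝ) : ℂ) =
      ∑ q' ∈ Ioc 0 Q, (((((moebius q' : ℤ) : ℝ) / (Nat.totient q' : ℝ) : ℝ)) : ℂ) *
        (if q' = q then ((B : ℝ) : ℂ) else 0) := by
    rw [Finset.sum_eq_single q]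
    · rw [if_pos rfl, ← Complex.ofReal_mul]
    · intro b _ hb
      rw [if_neg hb, mul_zero]
    · intro h
      exact absurd (Finset.mem_Ioc.2 ⟨hq, hqQ⟩) h
  rw [e2, e3, ← Finset.sum_sub_distrib]
  refine (norm_sum_le _ _).trans ?_
  have hb : ∀ q' ∈ Ioc 0 Q, ‖(((((moebius q' : ℤ) : ℝ) / (Nat.totient q' : ℝ) : ℝ)) : ℂ) *
        (∑ n ∈ Ioc y (y + B), (cR q' (n : ℤ) : ℂ) * ee ((n : ℝ) * ((a : ℝ) / q))) -
      (((((moebius q' : ℤ) : ℝ) / (Nat.totient q' : ℝ) : ℝ)) : ℂ) *
        (if q' = q then ((B : ℝ) : ℂ) else 0)‖ ≤ (Q : ℝ) ^ 2 := by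
    intro q' hq'
    rw [Finset.mem_Ioc] at hq'
    have hφ : 0 < Nat.totient q' := Nat.totient_pos.2 hq'.1
    have hφ' : (0 : ℝ) < (Nat.totient q' : ℝ) := by exact_mod_cast hφ
    rw [← mul_sub, norm_mul, Complex.norm_real, Real.norm_eq_abs, abs_div,
      abs_of_pos hφ']
    have hμ : |((moebius q' : ℤ) : ℝ)| ≤ 1 := by
      have := abs_moebius_le_one (n := q')
      exact_mod_cast this
    have h3 := hT q' hq'.1
    have hqq : (q' : ℝ) ≤ Q := by exact_mod_cast hq'.2
    have hqq2 : (q : ℝ) ≤ Q := by exact_mod_cast hqQ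
    have hq'0 : (0 : ℝ) ≤ q' := by positivity
    calc |((moebius q' : ℤ) : ℝ)| / (Nat.totient q' : ℝ) * _
        ≤ 1 / (Nat.totient q' : ℝ) * ((Nat.totient q' : ℝ) * ((q : ℝ) * q' / 2)) := by
          refine mul_le_mul ?_ h3 (norm_nonneg _) (by positivity)
          exact div_le_div_of_nonneg_right hμ hφ'.le
      _ = (q : ℝ) * q' / 2 := by
          field_simp
      _ ≤ (Q : ℝ) ^ 2 := by nlinarith
  refine (Finset.sum_le_sum hb).trans ?_
  rw [Finset.sum_const, Nat.card_Ioc, nsmul_eq_mul, Nat.sub_zero]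
  apply le_of_eq
  ring

end Pool.Agent.BQ
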